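import Pool.Agent.H46.Usb.C

set_option autoImplicit false
set_option linter.unusedSectionVars false

namespace Pool.Agent.H46.Bog

open Polynomial Finset NumberField IntermediateField

lemma bourbaki {H B k : Type} [Group H] [Fintype H] [CommRing B] [MulSemiringAction H B] [CommRing k]
    [IsDomain k] (φ ψ : B →+* k) (h : ∀ b, (∀ g : H, g • b = b) → φ b = ψ b) :
    ∃ g : H, ∀ b, ψ b = φ (g • b) := by
  classical
  by_contra! c
  choose b hb using c
  let e := Fintype.equivFin H
  let β : B[X] := ∑ g, monomial (e g) (b g)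
  have a : (MulSemiringAction.charpoly H β).map (mapRingHom φ) =
      (MulSemiringAction.charpoly H β).map (mapRingHom ψ) := by
    ext i j
    simp only [coeff_map, coe_mapRingHom]
    exact h _ fun g => by rw [← coeff_smul, MulSemiringAction.smul_coeff_charpoly]
  have := congrArg (eval (mapRingHom ψ β)) a
  rw [eval_map_apply, MulSemiringAction.eval_charpoly, map_zero, MulSemiringAction.charpoly_eq,
    Polynomial.map_prod, eval_prod, prod_eq_zero_iff] at this
  obtain ⟨g, -, hg⟩ := this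
  have z : β.coeff (e g) = b g := by simp [β, coeff_monomial, Fin.val_inj]
  apply hb g
  simpa [sub_eq_zero, coeff_smul, z] using congrArg (coeff · (e g)) hg

/-- `2 x ^ n + x ^ (n - 1) + x + 2` with `n = 12 m + 12` -/
noncomputable def P (R : Type) [CommRing R] (m : ℕ) : R[X] :=
  2 * X ^ (12 * m + 12) + X ^ (12 * m + 11) + X + 2

/-- `x` is a root of `P m` -/
def Rt {R : Type} [CommRing R] (m : ℕ) (x : R) : Prop :=
  2 * x ^ (12 * m + 12) + x ^ (12 * m + 11) + x + 2 = 0

lemma Rt.map {R S F : Type} [CommRing R] [CommRing S] [FunLike F R S] [RingHomClass F R S] (f : F)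
    {m : ℕ} {x : R} (h : Rt m x) : Rt m (f x) := by simpa [Rt, map_ofNat] using congrArg f h

lemma Rt.inv {K : Type} [Field K] {m : ℕ} {x : K} (h : Rt m x) (x0 : x ≠ 0) : Rt m x⁻¹ := by
  refine mul_left_cancel₀ (pow_ne_zero (12 * m + 12) x0) ?_
  have := mul_inv_cancel₀ (pow_ne_zero (12 * m + 11) x0)
  have := mul_inv_cancel₀ x0
  rw [Rt] at h
  simp only [pow_succ _ (12 * m + 11), inv_pow] at *
  grind

lemma P1 {R : Type} [CommRing R] (m : ℕ) : (P R m).coeff 1 = 1 := by
  simp [P, coeff_X_pow, ← C_ofNat]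

lemma triple {k : Type} [Field k] (m : ℕ) (a : k) : ¬(X - C a) ^ 3 ∣ P k m := fun h => by
  rw [X_sub_C_pow_dvd_iff, X_pow_dvd_iff, show (P k m).comp (X + C a) = C 2 * (X + C a) ^ (12 * m + 12) +
    (X + C a) ^ (12 * m + 11) + (X + C a) ^ 1 + C 2 by simp [P, C_ofNat]] at h
  have h0 := h 0 (by omega)
  have h1 := h 1 (by omega)
  have h2 := h 2 (by omega)
  have c1 : (12 * m + 12).choose 2 = (6 * m + 6) * (12 * m + 11) := by
    rw [Nat.choose_two_right]; exact Nat.div_eq_of_eq_mul_left two_pos (by simp; ring)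
  have c2 : (12 * m + 11).choose 2 = (6 * m + 5) * (12 * m + 11) := by
    rw [Nat.choose_two_right]; exact Nat.div_eq_of_eq_mul_left two_pos (by simp; ring)
  simp only [coeff_add, coeff_C_mul, coeff_X_add_C_pow, c1, c2, coeff_C] at h0 h1 h2
  simp at h0 h1 h2
  have e : a ^ (12 * m + 9) * ((12 * m + 11) * ((12 * m + 12) * a + (6 * m + 5))) = 0 := by
    linear_combination h2
  simp only [mul_eq_zero] at e
  rcases e with e | e | e
  · rw [pow_eq_zero_iff (by omega)] at e
    simp [e] at h1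
  · have : (3 : k) = 0 := by
      linear_combination 2 * h0 - (2 * a + 1) * h1 + (2 * a + 1) * (2 * a + 1) * a ^ (12 * m + 10) * e
    exact one_ne_zero (α := k) (by linear_combination (4 * m + 4) * this - e)
  have f : a ^ (12 * m + 10) = -1 := by linear_combination h1 - 2 * a ^ (12 * m + 10) * e
  have g : 2 * (1 - a ^ 2) = 0 := by linear_combination h0 - (2 * a ^ 2 + a) * f
  have : (2 : k) = 0 := (mul_eq_zero.mp g).elim id fun c => by
    rw [show 12 * m + 10 = 2 * (6 * m + 5) by ring, pow_mul, ← sub_eq_zero.mp c, one_pow] at f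
    linear_combination f
  exact one_ne_zero (α := k) (by linear_combination ((6 * m + 6) * a + 3 * m + 3) * this - e)

lemma nocl {L Γ : Type} [Field L] [LinearOrderedCommGroupWithZero Γ] (w : Valuation L Γ) {m : ℕ}
    {s : Finset L} {x : L} (h0 : w x ≤ 1) (hs : ∀ y ∈ s, Rt m y ∧ w (y - x) < 1) :
    s.card ≤ 2 ∧ (x = 0 → s.card ≤ 1) := by
  classical
  let V := w.valuationSubring
  have hV : ∀ y ∈ s, y ∈ V := fun y h => by
    simpa using V.add_mem _ _ (show y - x ∈ V from (hs y h).2.le) h0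
  have p0 : P V m ≠ 0 := fun c => by simpa [c] using P1 (R := V) m
  have := Polynomial.map_dvd (IsLocalRing.residue V) ((Multiset.prod_X_sub_C_dvd_iff_le_roots p0
    (s.subtype (· ∈ V)).1).mpr ((Multiset.le_iff_subset (nodup _)).mpr fun y h => (mem_roots p0).mpr
      (by
        simp only [P, IsRoot, eval_add, eval_mul, eval_pow, eval_X, eval_ofNat]
        exact Subtype.ext (hs y (mem_subtype.mp h)).1)))
  rw [← prod_eq_multiset_prod, Polynomial.map_prod, prod_congr rfl
    (g := fun _ => X - C (IsLocalRing.residue V ⟨x, h0⟩)) fun y h => ?_, prod_const, card_subtype,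
    filter_true_of_mem hV, show (P V m).map _ = P _ m by simp [P]] at this
  · refine ⟨not_lt.mp fun c => triple m _ ((pow_dvd_pow _ c).trans this), fun e => not_lt.mp fun c => ?_⟩
    subst e
    have := (pow_dvd_pow _ c).trans this
    rw [show (⟨0, h0⟩ : V) = 0 from rfl, map_zero, map_zero, sub_zero, X_pow_dvd_iff] at this
    simpa [P1] using this 1 (by omega)
  rw [Polynomial.map_sub, map_X, map_C, sub_right_inj, C_inj, ← sub_eq_zero, ← map_sub,
    IsLocalRing.residue_eq_zero_iff, V.valuation_lt_one_iff,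
    ← (w.isEquiv_valuation_valuationSubring).lt_one_iff_lt_one]
  exact (hs y (mem_subtype.mp h)).2

theorem inert {L : Type} [Field L] [NumberField L] [IsGalois ℚ L] {p r a : ℕ} (hp : p.Prime) {ζ : L}
    (hζ : IsPrimitiveRoot ζ (p ^ r)) (ha : a.Coprime p) :
    ∃ σ : L ≃ₐ[ℚ] L, σ ζ = ζ ^ a ∧ ∀ m α, Rt m α → σ (σ α) = α := by
  classical
  have := Fact.mk hp
  have q0 := pow_pos hp.pos r
  have := NeZero.mk q0.ne'
  obtain ⟨τ, hτ⟩ := minpoly.exists_algEquiv_of_root' (K := ℚ) (y := ζ) (x := ζ ^ a)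
    (Algebra.IsAlgebraic.isAlgebraic _) (by
      rw [← cyclotomic_eq_minpoly_rat hζ q0, aeval_def, ← eval_map, map_cyclotomic]
      exact (hζ.pow_of_coprime a (ha.pow_right r)).isRoot_cyclotomic q0)
  obtain ⟨Q, hQ, e⟩ := Ideal.exists_ideal_over_maximal_of_isIntegral (S := 𝓞 L) (Ideal.span {(p : ℤ)})
    (((RingHom.injective_iff_ker_eq_bot _).mp (algebraMap ℤ (𝓞 L)).injective_int).trans_le bot_le)
  have pQ : (p : 𝓞 L) ∈ Q := by
    have : (p : ℤ) ∈ Q.comap (algebraMap ℤ (𝓞 L)) := e ▸ Ideal.mem_span_singleton_self _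
    simpa using this
  let φ := Ideal.Quotient.mk Q
  have : CharP (𝓞 L ⧸ Q) p := (CharP.charP_iff_prime_eq_zero hp).mpr
    (by rw [← map_natCast φ]; exact Ideal.Quotient.eq_zero_iff_mem.mpr pQ)
  let z : 𝓞 L := ⟨ζ, hζ.isIntegral q0⟩
  have z1 : φ z = 1 := by
    rw [← sub_eq_zero, ← pow_eq_zero_iff q0.ne', sub_pow_char_pow, one_pow, ← map_pow,
      show z ^ p ^ r = 1 from Subtype.ext hζ.pow_eq_one, map_one, sub_self]
  obtain ⟨g, hg⟩ := bourbaki (H := ℚ⟮ζ⟯.fixingSubgroup) φ (φ.comp (MulSemiringAction.toRingHom _ _ τ))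
    fun b hb => by
      have hb : (b : L) ∈ ℚ⟮ζ⟯ := by
        rw [← IsGalois.fixedField_fixingSubgroup ℚ⟮ζ⟯]; exact fun g => congrArg Subtype.val (hb g)
      have : IsCyclotomicExtension {p ^ r} ℚ ℚ⟮ζ⟯ := hζ.intermediateField_adjoin_isCyclotomicExtension ℚ
      obtain ⟨⟨_, hy⟩, e⟩ := (IsCyclotomicExtension.Rat.isIntegralClosure_adjoin_singleton_of_prime_pow
        (ζ := AdjoinSimple.gen ℚ ζ) (.of_map_of_injective (f := algebraMap ℚ⟮ζ⟯ L) hζ
          (algebraMap ℚ⟮ζ⟯ L).injective)).isIntegral_iff.mp ((isIntegral_algebraMap_iff (x := ⟨_, hb⟩)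
            (algebraMap ℚ⟮ζ⟯ L).injective).mp b.isIntegral_coe)
      rw [Algebra.adjoin_singleton_eq_range_aeval] at hy
      obtain ⟨f, rfl⟩ := hy
      have e : b = aeval z f := RingOfIntegers.ext (by
        refine (congrArg (algebraMap ℚ⟮ζ⟯ L) e).symm.trans ?_
        exact (aeval_algebraMap_apply L (AdjoinSimple.gen ℚ ζ) f).symm.trans
          (aeval_algebraMap_apply L z f))
      have t : τ • z = z ^ a := Subtype.ext hτ
      rw [e, ← RingHom.toIntAlgHom_apply, ← RingHom.toIntAlgHom_apply, ← aeval_algHom_apply,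
        ← aeval_algHom_apply]
      simp [t, z1]
  refine ⟨τ * g.1⁻¹, (congrArg τ (g⁻¹.2 (AdjoinSimple.gen ℚ ζ))).trans hτ, ?_⟩
  set σ := τ * g.1⁻¹
  have hσ : ∀ b : 𝓞 L, σ • b - b ∈ Q := fun b => Ideal.Quotient.eq.mp (by
    have := hg (g⁻¹ • b)
    rwa [smul_inv_smul] at this)
  let v : IsDedekindDomain.HeightOneSpectrum (𝓞 L) := ⟨Q, hQ.isPrime, fun c => hp.ne_zero (by
    simpa [c] using pQ)⟩
  let w := v.valuation L
  have key : ∀ x, w x ≤ 1 → w (σ x - x) < 1 := fun x h => by
    obtain ⟨n, ⟨d, hd⟩, e⟩ := v.exists_primeCompl_mul_eq_of_integer x h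
    have d1 := v.valuation_eq_one_iff_notMem (K := L).mpr hd
    have d2 := v.valuation_eq_one_iff_notMem (K := L).mpr
      (show σ • d ∉ Q from fun c => hd (by simpa using Q.sub_mem c (hσ d)))
    have := (v.valuation_lt_one_iff_mem (K := L) _).mpr
      (Q.sub_mem (Q.mul_mem_right d (hσ n)) (Q.mul_mem_left n (hσ d)))
    rw [← mul_one (w _), ← d1, ← mul_one (_ * _), ← d2, ← map_mul, ← map_mul]
    convert this using 2
    have f := congrArg σ e
    rw [map_mul] at f
    simp only [map_sub, map_mul]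
    change _ = (σ n - n) * d - n * (σ d - d)
    change _ * σ d = σ n at f
    change _ * (d : L) = n at e
    change _ * (d : L) * σ d = _
    linear_combination d * f - σ d * e
  have main : ∀ m α, Rt m α → w α ≤ 1 → σ (σ α) = α := fun m α h l => by
    have a1 := key α l
    have a2 := key (σ α) (by simpa using w.map_add_le a1.le l)
    have := (nocl w (m := m) (s := {α, σ α, σ (σ α)}) l (by
      simpa [h, h.map σ, (h.map σ).map σ, a1] using w.map_add_lt a2 a1)).1
    by_contra c
    have c1 : σ α ≠ α := fun e => c (by rw [e, e])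
    rw [card_insert_of_notMem (by simp [c1.symm, Ne.symm c]), card_pair (σ.injective.ne c1.symm)] at this
    omega
  intro m α h
  rcases le_or_gt (w α) 1 with l | l
  · exact main m α h l
  have a0 : α ≠ 0 := by rintro rfl; simp at l
  simpa using main m _ (h.inv a0) (by rw [map_inv₀]; exact inv_le_one_of_one_le₀ l.le)

end Pool.Agent.H46.Bog
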