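import Pool.Agent.H46.Bog.A

set_option autoImplicit false
set_option linter.unusedSectionVars false

namespace Pool.Agent.H46.Bog

open Polynomial Finset NumberField IntermediateField Height Module Pool.Agent.H46.Usb

lemma Rt.ne {K : Type} [Field K] [CharZero K] {m : ℕ} {x : K} (h : Rt m x) : x ≠ 0 := by
  rintro rfl; simp [Rt] at h

lemma circle {m : ℕ} {x : ℂ} (h : Rt m x) : ‖x‖ = 1 := by
  have key : ∀ x : ℂ, Rt m x → ‖x‖ ≤ 1 := fun x h => not_lt.mp fun c => by
    have e : x ^ (12 * m + 11) * (2 * x + 1) = -(x + 2) := by rw [Rt] at h; linear_combination h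
    have a := congrArg (‖·‖) e
    simp only [norm_mul, norm_pow, norm_neg] at a
    have b := pow_le_pow_left₀ (norm_nonneg _) ((le_mul_of_one_le_left (norm_nonneg (2 * x + 1))
      (one_le_pow₀ c.le)).trans a.le) 2
    have d := one_lt_pow₀ c two_ne_zero
    simp only [Complex.sq_norm, Complex.normSq_apply] at b d
    simp at b
    nlinarith
  have := key _ (h.inv h.ne)
  rw [norm_inv, inv_le_one₀ (norm_pos_iff.mpr h.ne)] at this
  exact (key x h).antisymm this

lemma ht_emb {K ι : Type} [Finite ι] [Field K] [NumberField K] {y : ι → 𝓞 K} (h : y ≠ 0) :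
    mulHeight (fun i => (y i : K)) * (Ideal.span (Set.range y)).absNorm =
      ∏ φ : K →+* ℂ, ⨆ i, ‖φ (y i)‖ := by
  classical
  have h' : (fun i => (y i : K)) ≠ 0 := fun c => h (funext fun i => by simpa using congrFun c i)
  rw [NumberField.mulHeight_eq h', mul_assoc, mul_comm (finprod _),
    absNorm_mul_finprod_finitePlace_eq_one h, mul_one, ← prod_fiberwise univ InfinitePlace.mk]
  refine prod_congr rfl fun v _ => ?_
  rw [← InfinitePlace.card_filter_mk_eq, ← prod_const]
  refine prod_congr rfl fun φ hφ => ?_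
  rw [← (mem_filter.mp hφ).2]; rfl

lemma prod_le {K ι : Type} [Fintype ι] [Field K] [NumberField K] {m : ℕ} {x : ι → K}
    (i : Function.Injective x) (h : ∀ a, Rt m (x a)) : ∏ a, mulHeight₁ (x a) ≤ 2 ^ finrank ℚ K := by
  classical
  have int : ∀ I : ι → Fin 2, IsIntegral ℤ (2 * ∏ a, ![x a, 1] (I a)) := fun I =>
    (int_iff _).mpr fun V hV => by
      have v2 : V.valuation 2 ≤ 1 := (int_iff _).mp (by simpa using isIntegral_natCast (B := K) 2) V hV
      have t : ∀ a, V.valuation (x a) ≤ 1 → V.valuation (![x a, 1] (I a)) ≤ 1 := fun a l => by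
        rcases I a with ⟨_ | _ | _, c⟩ <;> simp_all
      by_cases c : ∀ a, V.valuation (x a) ≤ 1
      · rw [map_mul, map_prod]; exact mul_le_one' v2 (prod_le_one' fun a _ => t a (c a))
      push Not at c
      obtain ⟨a, c⟩ := c
      have l : ∀ a, 1 < V.valuation (x a) → V.valuation (x a)⁻¹ < 1 := fun a c => by
        rw [map_inv₀]; exact inv_lt_one_of_one_lt₀ c
      rw [← mul_prod_erase _ _ (mem_univ a), ← mul_assoc, map_mul, map_prod]
      refine mul_le_one' ?_ (prod_le_one' fun b hb => t b (not_lt.mp fun d => ?_))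
      · have e : 2 * x a = -(2 * (x a)⁻¹ ^ (12 * m + 11) + (x a)⁻¹ ^ (12 * m + 10) + 1) := by
          have := ((h a).inv (h a).ne)
          have := mul_inv_cancel₀ (h a).ne
          simp only [Rt, pow_succ _ (12 * m + 11), pow_succ _ (12 * m + 10)] at *
          grind
        have p := fun n => (map_pow V.valuation _ n).trans_le (pow_le_one' (l a c).le n)
        rcases I a with ⟨_ | _ | _, c⟩
        · rw [Fin.zero_eta, Matrix.cons_val_zero, e, Valuation.map_neg]
          exact V.valuation.map_add_le (V.valuation.map_add_le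
            (by rw [map_mul]; exact mul_le_one' v2 (p _)) (p _)) (by simp)
        · simp [v2]
        · omega
      have := (nocl V.valuation (m := m) (s := {(x a)⁻¹, (x b)⁻¹}) (x := 0) (by simp) (by
        simp [-map_inv₀, l a c, l b d, (h a).inv (h a).ne, (h b).inv (h b).ne])).2 rfl
      rw [card_pair (inv_injective.ne (i.ne (ne_of_mem_erase hb).symm))] at this
      omega
  let y : (ι → Fin 2) → 𝓞 K := fun I => ⟨_, int I⟩
  have y0 : y 1 ≠ 0 := fun c => by simpa [y] using RingOfIntegers.ext_iff.mp c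
  have e := ht_emb (y := y) fun c => y0 (congrFun c 1)
  have n1 : (1 : ℝ) ≤ (Ideal.span (Set.range y)).absNorm := by
    rw [Nat.one_le_cast, Nat.one_le_iff_ne_zero, Ne, Ideal.absNorm_eq_zero_iff, Ideal.span_eq_bot]
    exact fun c => y0 (c _ ⟨1, rfl⟩)
  simp only [mulHeight₁_eq_mulHeight]
  rw [← mulHeight_fun_prod_eq fun a c => one_ne_zero (congrFun c 1),
    ← mulHeight_smul_eq_mulHeight _ two_ne_zero]
  refine ((le_mul_of_one_le_right (mulHeight_pos _).le n1).trans e.le).trans_eq ?_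
  rw [← Embeddings.card K ℂ, ← card_univ, ← prod_const]
  refine prod_congr rfl fun φ _ => (iSup_congr fun I => ?_).trans ciSup_const
  change ‖φ (2 * _)‖ = _
  rw [map_mul, map_prod, norm_mul, norm_prod, prod_eq_one fun a _ => ?_]
  · simp [map_ofNat]
  rcases I a with ⟨_ | _ | _, c⟩
  · exact circle ((h a).map φ)
  · simp
  · omega

lemma schinzel {K : Type} [Field K] [NumberField K] {x : K} (h0 : x ≠ 0) (h1 : x ^ 2 ≠ 1)
    (h : ∀ φ : K →+* ℂ, (φ x).im = 0) : 2 ^ finrank ℚ K ≤ mulHeight₁ x ^ 4 := by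
  obtain ⟨a, b, hb, rfl⟩ := IsFractionRing.div_surjective (A := 𝓞 K) x
  have b0 := nonZeroDivisors.ne_zero hb
  have e := ht_emb (y := ![a, b]) fun c => b0 (congrFun c 1)
  set I := Ideal.span (Set.range ![a, b])
  have aI : a ∈ I := Ideal.subset_span ⟨0, rfl⟩
  have bI : b ∈ I := Ideal.subset_span ⟨1, rfl⟩
  have bK : (b : K) ≠ 0 := by simpa using b0
  have c0 : a * b * (a ^ 2 - b ^ 2) ≠ 0 := by
    refine mul_ne_zero (mul_ne_zero (by rintro rfl; simp at h0) b0) (sub_ne_zero.mpr fun c => h1 ?_)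
    rw [div_pow, ← map_pow, c, map_pow, div_self (pow_ne_zero 2 bK)]
  have n := Nat.le_of_dvd (Int.natAbs_pos.mpr (Algebra.norm_ne_zero_iff.mpr c0))
    ((Ideal.absNorm_dvd_absNorm_of_le ((Ideal.span_singleton_le_iff_mem (I * I * I ^ 2)).mpr
      (Ideal.mul_mem_mul (Ideal.mul_mem_mul aI bI) (sub_mem (Ideal.pow_mem_pow aI 2)
        (Ideal.pow_mem_pow bI 2))))).trans (Ideal.absNorm_span_singleton _).dvd)
  have n0 : (0 : ℝ) < I.absNorm := by
    rw [Nat.cast_pos, pos_iff_ne_zero, Ne, Ideal.absNorm_eq_zero_iff, Ideal.span_eq_bot]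
    exact fun c => b0 (c _ ⟨1, rfl⟩)
  have f := congrArg (‖·‖) (Algebra.norm_eq_prod_embeddings ℚ ℂ ((a * b * (a ^ 2 - b ^ 2) : 𝓞 K) : K))
  simp only [← Algebra.coe_norm_int, norm_prod, eq_ratCast, Rat.cast_intCast, Complex.norm_intCast,
    ← (RingHom.equivRatAlgHom K ℂ).prod_comp] at f
  rw [mulHeight₁_div_eq_mulHeight, show ![algebraMap (𝓞 K) K a, algebraMap (𝓞 K) K b] =
    fun i => ((![a, b] i : 𝓞 K) : K) by ext i; fin_cases i <;> rfl]
  refine le_of_mul_le_mul_right ?_ (pow_pos n0 4)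
  rw [← mul_pow, e, ← prod_pow]
  refine (mul_le_mul_of_nonneg_left (show _ ≤ |((Algebra.norm ℤ (a * b * (a ^ 2 - b ^ 2)) : ℤ) : ℝ)| by
    rw [← Int.cast_abs, ← Nat.cast_natAbs, show 4 = 1 + 1 + 2 by rfl, pow_add, pow_add, pow_one]
    exact_mod_cast by simpa only [map_mul Ideal.absNorm, sq I] using n) (by positivity)).trans ?_
  rw [f, ← Embeddings.card K ℂ, ← card_univ, ← prod_const, ← prod_mul_distrib]
  refine prod_le_prod (fun _ _ => by positivity) fun φ _ => ?_
  have bφ : φ b ≠ 0 := by simpa using b0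
  have g : φ a = (φ (a / b)).re * φ b := by
    rw [show ((φ (a / b)).re : ℂ) = φ (a / b) from Complex.ext rfl (h φ).symm, map_div₀,
      div_mul_cancel₀ _ bφ]
  generalize (φ (a / b)).re = t at g
  have u : ‖φ a‖ ≤ ⨆ i, ‖φ (![a, b] i : 𝓞 K)‖ := Finite.le_ciSup_of_le 0 le_rfl
  have w : ‖φ b‖ ≤ ⨆ i, ‖φ (![a, b] i : 𝓞 K)‖ := Finite.le_ciSup_of_le 1 le_rfl
  have z : φ (a * b * (a ^ 2 - b ^ 2) : 𝓞 K) = (t * (t ^ 2 - 1) : ℝ) * φ b ^ 4 := by
    push_cast; simp only [map_mul, map_sub, map_pow, g]; ring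
  change 2 * ‖φ _‖ ≤ _
  rw [z, norm_mul, norm_pow, Complex.norm_real, norm_mul, ← mul_assoc]
  rw [g, norm_mul, Complex.norm_real] at u
  simp only [Real.norm_eq_abs, ← sq_abs t] at u ⊢
  have s0 := abs_nonneg t
  generalize |t| = s at *
  rcases le_total s 1 with l | l
  · refine le_trans (mul_le_of_le_one_left (by positivity) ?_) (pow_le_pow_left₀ (norm_nonneg _) w 4)
    rw [abs_of_nonpos (by nlinarith)]
    nlinarith [mul_nonneg (sq_nonneg (5 * s - 3)) (show 0 ≤ 5 * s + 6 by positivity)]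
  refine le_trans ?_ (pow_le_pow_left₀ (by positivity) u 4)
  rw [mul_pow, abs_of_nonneg (by nlinarith)]
  gcongr
  nlinarith [mul_nonneg (mul_nonneg (sq_nonneg (5 - 3 * s)) (show 0 ≤ 5 + 6 * s by positivity)) s0,
    pow_nonneg s0 3, pow_nonneg s0 4]

end Pool.Agent.H46.Bog
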