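import Mathlib

set_option autoImplicit false

namespace Pool.Agent.H46.Bog

/-- The Bogomolov property with respect to `𝔾ₘ`: nonzero elements of `F` of small absolute logarithmic
Weil height are roots of unity. -/
def Bogomolov {Qb : Type} [Field Qb] [CharZero Qb] (F : IntermediateField ℚ Qb) : Prop :=
  ∃ ε > 0, ∀ x ∈ F, x ≠ 0 → NumberField.absLogHeight₁ x < ε → IsOfFinOrder x

end Pool.Agent.H46.Bog
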