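import Pool.Agent.H46.Bog.B
import Pool.Agent.H46.Bog.Defs

set_option autoImplicit false
set_option linter.unusedSectionVars false

namespace Pool.Agent.H46.Bog

open Polynomial Finset NumberField IntermediateField Height Module Pool.Agent.H46.Usb

variable {Qb : Type} [Field Qb] [CharZero Qb] [IsAlgClosure ℚ Qb]

lemma eq_on {E : Type} [Field E] [CharZero E] (f g : Qb →+* E) {S : Set Qb} (h : ∀ x ∈ S, f x = g x)
    {x : Qb} (hx : x ∈ adjoin ℚ S) : f x = g x := by
  induction hx using adjoin_induction with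
  | mem x hx => exact h x hx
  | _ => simp_all

variable (Qb) in
/-- the field generated by all roots of all `P m` -/
noncomputable def FF : IntermediateField ℚ Qb := adjoin ℚ {x | ∃ m, Rt m x}

lemma tors {x : Qb} (hx : x ∈ FF Qb) (h : IsOfFinOrder x) : x ^ 24 = 1 := by
  classical
  refine orderOf_dvd_iff_pow_eq_one.mp ((Nat.dvd_iff_prime_pow_dvd_dvd _ _).mpr fun p k hp ⟨c, hc⟩ => ?_)
  have hζ := (IsPrimitiveRoot.orderOf x).pow h.orderOf_pos (hc.trans (mul_comm _ _))
  replace hx := pow_mem hx c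
  generalize x ^ c = ζ at hζ hx
  have key : ∀ a : ℕ, a.Coprime p → (ζ ^ a) ^ a = ζ := fun a ha => by
    obtain ⟨T, hT, hx⟩ := exists_finset_of_mem_adjoin hx
    let L := FiniteGaloisIntermediateField.adjoin ℚ (insert ζ T : Set Qb)
    have s := FiniteGaloisIntermediateField.subset_adjoin ℚ (insert ζ T : Set Qb)
    have : NumberField L := {}
    have : IsGalois ℚ L := L.isGalois
    obtain ⟨σ, h1, h2⟩ := inert (L := L) (ζ := ⟨ζ, s (by simp)⟩) hp
      (.of_map_of_injective (f := algebraMap L Qb) hζ (algebraMap L Qb).injective) ha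
    have e : σ.liftNormal Qb ζ = ζ ^ a :=
      (σ.liftNormal_commutes Qb ⟨ζ, s (by simp)⟩).trans (congrArg Subtype.val h1)
    have := eq_on ((σ.liftNormal Qb).toRingHom.comp (σ.liftNormal Qb).toRingHom) (RingHom.id _)
      (fun y hy => by
        obtain ⟨m, hm⟩ := hT hy
        refine (congrArg _ (σ.liftNormal_commutes Qb ⟨y, s (by simp_all)⟩)).trans
          ((σ.liftNormal_commutes Qb _).trans (congrArg Subtype.val (h2 m ⟨y, _⟩ (Subtype.ext hm))))) hx
    simpa [e] using this
  have z0 := hζ.ne_zero (pow_pos hp.pos k).ne'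
  refine hζ.dvd_of_pow_eq_one _ ?_
  by_cases e : p = 5
  · have : ζ ^ 3 = 1 := mul_right_cancel₀ z0 (by linear_combination key 2 (by simp [e]; decide))
    rw [show 24 = 3 * 8 by rfl, pow_mul, this, one_pow]
  exact mul_right_cancel₀ z0 (by
    linear_combination key 5 ((Nat.coprime_primes (by decide) hp).mpr (Ne.symm e)))

lemma not_bog : ¬Bogomolov (FF Qb) := fun ⟨ε, e0, h⟩ => by
  classical
  have := IsAlgClosure.isAlgClosed ℚ (K := Qb)
  obtain ⟨m, hm⟩ := exists_nat_gt (Real.log 2 / ε + 12)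
  have dg : (P ℚ m).natDegree = 12 * m + 12 := by unfold P; compute_degree!
  have cd := card_rootSet_eq_natDegree (K := Qb) (p := P ℚ m)
    ((isCoprime_iff_aeval_ne_zero_of_isAlgClosed ℚ ℂ _ _).mpr fun a => by
      by_contra! c
      have n := circle (m := m) (x := a) (by simpa [P, Rt, map_ofNat] using c.1)
      have e : 2 * (12 * m + 12 : ℕ) * a ^ (12 * m + 11) = -((12 * m + 11 : ℕ) * a ^ (12 * m + 10) + 1) := by
        have := c.2
        simp [P, map_ofNat] at this
        push_cast; linear_combination this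
      have := (congrArg (‖·‖) e).trans_le ((norm_neg _).trans_le (norm_add_le _ _))
      simp only [norm_mul, norm_pow, n, Complex.norm_natCast, Complex.norm_ofNat, norm_one, one_pow] at this
      push_cast at this
      linarith [Nat.cast_nonneg (α := ℝ) m]) (IsAlgClosed.splits _)
  let S := ((P ℚ m).rootSet Qb).toFinset
  have rS : ∀ x ∈ S, Rt m x := fun x hx => by
    simpa [P, Rt, map_ofNat] using aeval_eq_zero_of_mem_rootSet (Set.mem_toFinset.mp hx)
  let L := adjoin ℚ (S : Set Qb)
  have : FiniteDimensional ℚ L := finiteDimensional_adjoin fun x _ => Algebra.IsIntegral.isIntegral x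
  have : NumberField L := {}
  let x : S → L := fun a => ⟨a, subset_adjoin ℚ _ a.2⟩
  have a := Real.log_le_log (prod_pos fun _ _ => mulHeight₁_pos _) (prod_le (m := m) (x := x)
    (fun a b e => Subtype.ext (congrArg L.val e)) fun a => Subtype.ext (rS a a.2))
  rw [Real.log_prod fun _ _ => mulHeight₁_ne_zero _, Real.log_pow] at a
  simp only [← logHeight₁_eq_log_mulHeight₁, ← Usb.abs_eq, ← sum_mul, mul_comm (finrank ℚ L : ℝ)] at a
  replace a := le_of_mul_le_mul_right a (Nat.cast_pos.mpr finrank_pos)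
  rw [sum_coe_sort S absLogHeight₁] at a
  have b := card_nsmul_le_sum (S \ nthRootsFinset 24 1) absLogHeight₁ ε fun y hy => not_lt.mp fun c => by
    have := mem_sdiff.mp hy
    have f : y ∈ FF Qb := subset_adjoin ℚ _ ⟨m, rS y this.1⟩
    exact this.2 ((mem_nthRootsFinset (by decide) 1).mpr (tors f (h y f (rS y this.1).ne c)))
  have c := le_card_sdiff (nthRootsFinset 24 (1 : Qb)) S
  have d : (nthRootsFinset 24 (1 : Qb)).card ≤ 24 :=
    (Multiset.toFinset_card_le _).trans (card_nthRoots _ _)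
  have e : S.card = 12 * m + 12 := by rw [Set.toFinset_card, cd, dg]
  have f := b.trans ((sum_le_sum_of_subset_of_nonneg sdiff_subset fun y _ _ => by
    have : FiniteDimensional ℚ ℚ⟮y⟯ := adjoin.finiteDimensional (Algebra.IsIntegral.isIntegral y)
    have : NumberField ℚ⟮y⟯ := {}
    exact nonneg_of_mul_nonneg_left ((zero_le_logHeight₁ _).trans_eq
      (Usb.abs_eq ℚ⟮y⟯ (AdjoinSimple.gen ℚ y)).symm) (Nat.cast_pos.mpr finrank_pos)).trans a)
  have g : (m : ℝ) ≤ (S \ nthRootsFinset 24 1).card + 12 := by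
    have : 1 ≤ m := by
      have : 0 ≤ Real.log 2 / ε := by positivity
      exact_mod_cast (by linarith : (1 : ℝ) ≤ m)
    exact_mod_cast (by omega)
  rw [nsmul_eq_mul, ← le_div_iff₀ e0] at f
  linarith

lemma bog {F : IntermediateField ℚ Qb} (h : ∀ x ∈ F, ∀ σ : Qb →+* ℂ, (σ x).im = 0) : Bogomolov F :=
  ⟨Real.log 2 / 4, by positivity, fun x hx x0 l => isOfFinOrder_iff_pow_eq_one.mpr ⟨2, two_pos, by
    by_contra c
    have : FiniteDimensional ℚ ℚ⟮x⟯ := adjoin.finiteDimensional (Algebra.IsIntegral.isIntegral x)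
    have : NumberField ℚ⟮x⟯ := {}
    have a := Real.log_le_log (by positivity) (schinzel (x := AdjoinSimple.gen ℚ x)
      (fun e => x0 (congrArg Subtype.val e)) (fun e => c (congrArg Subtype.val e)) fun φ => by
        obtain ⟨σ, hσ⟩ := ext_emb _ φ
        exact hσ _ ▸ h x hx σ)
    rw [Real.log_pow, Real.log_pow, ← logHeight₁_eq_log_mulHeight₁, ← Usb.abs_eq] at a
    have : (0 : ℝ) < finrank ℚ ℚ⟮x⟯ := Nat.cast_pos.mpr finrank_pos
    change _ ≤ _ * (absLogHeight₁ x * _) at a
    push_cast at a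
    nlinarith⟩⟩

end Pool.Agent.H46.Bog
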